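import Mathlib

open Finset

namespace Pool.Agent.Results.MP_c8d2d2_an.CyclicOptimal

/-- Centre of the `k`-th ball: `x_0 = 0`, `x_k = x_{k-1} + (ω_{i_{k-1}} + ω_{i_k}) / (2n)`. -/
noncomputable def pos (n : ℕ) (ω : Fin 3 → ℝ) (ι : ℕ → Fin 3) : ℕ → ℝ
  | 0 => 0
  | k + 1 => pos n ω ι k + (ω (ι k) + ω (ι (k + 1))) / (2 * n)

/-- The periodic Green's function of `-d²/dx²` on `[0,1]`. -/
noncomputable def G (x y : ℝ) : ℝ := 1 / 2 * |x - y| ^ 2 - 1 / 2 * |x - y| + 1 / 12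

/-- `ι` (indices `1, …, 3n`, with `i_0 := i_{3n}`) is an arrangement: every type occurs exactly
`n` times. The values of `ι` beyond `3n` are irrelevant. -/
structure IsArrangement (n : ℕ) (ι : ℕ → Fin 3) : Prop where
  wrap : ι 0 = ι (3 * n)
  count : ∀ t : Fin 3, #{k ∈ Icc 1 (3 * n) | ι k = t} = n

/-- The energy `U = 1/2 ∑_{k,m=1}^{3n} f_{i_k i_m} G(x_k, x_m)`. -/
noncomputable def energy (n : ℕ) (ω : Fin 3 → ℝ) (f : Matrix (Fin 3) (Fin 3) ℝ)
    (ι : ℕ → Fin 3) : ℝ :=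
  1 / 2 * ∑ k ∈ Icc 1 (3 * n), ∑ m ∈ Icc 1 (3 * n),
    f (ι k) (ι m) * G (pos n ω ι k) (pos n ω ι m)

/-- The cyclic arrangement `ABC⋯ABC` (types `0, 1, 2` at `k ≡ 1, 2, 0 mod 3`). -/
def cyc (k : ℕ) : Fin 3 := ⟨(k + 2) % 3, Nat.mod_lt _ (by norm_num)⟩

lemma sum_Icc_shift (F : ℕ → ℝ) (N : ℕ) : ∑ k ∈ Icc 1 N, F k = ∑ k ∈ range N, F (k + 1) := by
  induction N with
  | zero => simp
  | succ N ih => rw [Finset.sum_Icc_succ_top (by omega), ih, Finset.sum_range_succ]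

/-- partial sums of charges -/
noncomputable def ps (v : ℕ → ℝ) (k : ℕ) : ℝ := ∑ j ∈ range k, v (j + 1)

lemma ps_zero (v : ℕ → ℝ) : ps v 0 = 0 := by simp [ps]

lemma ps_succ (v : ℕ → ℝ) (k : ℕ) : ps v (k + 1) = ps v k + v (k + 1) := by
  simp [ps, Finset.sum_range_succ]

lemma by_parts (v x : ℕ → ℝ) (N : ℕ) :
    ∑ k ∈ range N, v (k + 1) * (x (N + 1) - x (k + 1)) =
      ∑ j ∈ range (N + 1), (x (j + 1) - x j) * ps v j := by
  induction N with
  | zero => simp [ps_zero]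
  | succ N ih =>
    rw [Finset.sum_range_succ _ (N + 1), ← ih]
    have : ∑ k ∈ range (N + 1), v (k + 1) * (x (N + 1 + 1) - x (k + 1)) =
        ∑ k ∈ range (N + 1), (v (k + 1) * (x (N + 1) - x (k + 1)) +
          (x (N + 1 + 1) - x (N + 1)) * v (k + 1)) := by
      refine Finset.sum_congr rfl fun k _ => ?_
      ring
    rw [this, Finset.sum_add_distrib, ← Finset.mul_sum]
    rw [Finset.sum_range_succ (fun k => v (k + 1) * (x (N + 1) - x (k + 1)))]
    simp [ps]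

lemma abs_sum (v x : ℕ → ℝ) (hx : Monotone x) (N : ℕ) :
    ∑ k ∈ range N, ∑ m ∈ range N, v (k + 1) * v (m + 1) * |x (k + 1) - x (m + 1)| =
      2 * ∑ j ∈ range N, (x (j + 1) - x j) * ps v j * (ps v N - ps v j) := by
  induction N with
  | zero => simp
  | succ N ih =>
    have hcross : ∑ k ∈ range N, v (k + 1) * v (N + 1) * |x (k + 1) - x (N + 1)| =
        v (N + 1) * ∑ j ∈ range (N + 1), (x (j + 1) - x j) * ps v j := by
      rw [← by_parts, Finset.mul_sum]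
      refine Finset.sum_congr rfl fun k hk => ?_
      have hk' : k + 1 ≤ N + 1 := by have := Finset.mem_range.1 hk; omega
      rw [abs_sub_comm, abs_of_nonneg (sub_nonneg.2 (hx hk'))]
      ring
    have hcross2 : ∑ m ∈ range N, v (N + 1) * v (m + 1) * |x (N + 1) - x (m + 1)| =
        v (N + 1) * ∑ j ∈ range (N + 1), (x (j + 1) - x j) * ps v j := by
      rw [← hcross]
      refine Finset.sum_congr rfl fun k _ => ?_
      rw [abs_sub_comm]; ring
    rw [Finset.sum_range_succ]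
    have e1 : ∑ k ∈ range N, ∑ m ∈ range (N + 1), v (k + 1) * v (m + 1) * |x (k + 1) - x (m + 1)| =
        (∑ k ∈ range N, ∑ m ∈ range N, v (k + 1) * v (m + 1) * |x (k + 1) - x (m + 1)|) +
        ∑ k ∈ range N, v (k + 1) * v (N + 1) * |x (k + 1) - x (N + 1)| := by
      rw [← Finset.sum_add_distrib]
      refine Finset.sum_congr rfl fun k _ => ?_
      rw [Finset.sum_range_succ]
    rw [e1, ih, Finset.sum_range_succ (fun m => v (N + 1) * v (m + 1) * |x (N + 1) - x (m + 1)|),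
      hcross, hcross2]
    rw [sub_self, abs_zero, mul_zero, add_zero]
    have e2 : ∑ j ∈ range (N + 1), (x (j + 1) - x j) * ps v j * (ps v (N + 1) - ps v j) =
        (∑ j ∈ range N, (x (j + 1) - x j) * ps v j * (ps v N - ps v j)) +
        v (N + 1) * ∑ j ∈ range (N + 1), (x (j + 1) - x j) * ps v j := by
      have : ∑ j ∈ range (N + 1), (x (j + 1) - x j) * ps v j * (ps v (N + 1) - ps v j) =
          ∑ j ∈ range (N + 1), ((x (j + 1) - x j) * ps v j * (ps v N - ps v j) +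
            v (N + 1) * ((x (j + 1) - x j) * ps v j)) := by
        refine Finset.sum_congr rfl fun k _ => ?_
        rw [ps_succ]; ring
      rw [this, Finset.sum_add_distrib, ← Finset.mul_sum, Finset.sum_range_succ
        (fun j => (x (j + 1) - x j) * ps v j * (ps v N - ps v j))]
      ring
    rw [e2]; ring

lemma green_sum (v x : ℕ → ℝ) (hx : Monotone x) (N : ℕ) (hv : ps v N = 0) :
    ∑ k ∈ range N, ∑ m ∈ range N, v (k + 1) * v (m + 1) * G (x (k + 1)) (x (m + 1)) =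
      (∑ j ∈ range N, (x (j + 1) - x j) * (ps v j) ^ 2) -
        (∑ j ∈ range N, (x (j + 1) - x j) * ps v j) ^ 2 := by
  have h1 := abs_sum v x hx N
  rw [hv] at h1
  have h2 : ∑ k ∈ range N, v (k + 1) * x (k + 1) = -∑ j ∈ range N, (x (j + 1) - x j) * ps v j := by
    have := by_parts v x N
    rw [Finset.sum_range_succ, hv, mul_zero, add_zero] at this
    rw [← this]
    have h3 : ∑ k ∈ range N, v (k + 1) * (x (N + 1) - x (k + 1)) =
        x (N + 1) * (∑ k ∈ range N, v (k + 1)) - ∑ k ∈ range N, v (k + 1) * x (k + 1) := by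
      rw [Finset.mul_sum, ← Finset.sum_sub_distrib]
      refine Finset.sum_congr rfl fun k _ => ?_
      ring
    have hv' : ∑ k ∈ range N, v (k + 1) = 0 := hv
    rw [h3, hv']; ring
  have hv' : ∑ k ∈ range N, v (k + 1) = 0 := hv
  have e1 : ∀ k m : ℕ, v (k + 1) * v (m + 1) * G (x (k + 1)) (x (m + 1)) =
      1 / 2 * (v (k + 1) * x (k + 1) ^ 2) * v (m + 1) +
      1 / 2 * v (k + 1) * (v (m + 1) * x (m + 1) ^ 2) -
      (v (k + 1) * x (k + 1)) * (v (m + 1) * x (m + 1)) -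
      1 / 2 * (v (k + 1) * v (m + 1) * |x (k + 1) - x (m + 1)|) +
      1 / 12 * v (k + 1) * v (m + 1) := by
    intro k m
    rw [G, sq_abs]; ring
  simp only [e1, Finset.sum_add_distrib, Finset.sum_sub_distrib, ← Finset.mul_sum, ← Finset.sum_mul]
  rw [h1, hv', h2]
  simp only [mul_zero, zero_mul, add_zero, zero_sub]
  have e2 : ∑ j ∈ range N, (x (j + 1) - x j) * ps v j * -ps v j =
      -∑ j ∈ range N, (x (j + 1) - x j) * (ps v j) ^ 2 := by
    rw [← Finset.sum_neg_distrib]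
    refine Finset.sum_congr rfl fun k _ => ?_
    ring
  rw [e2]; ring

lemma count_sum {n : ℕ} {ι : ℕ → Fin 3} (hι : IsArrangement n ι) (g : Fin 3 → ℝ) :
    ∑ k ∈ range (3 * n), g (ι (k + 1)) = n * ∑ t, g t := by
  rw [← sum_Icc_shift (fun k => g (ι k)), ← Finset.sum_fiberwise (Icc 1 (3 * n)) ι, Finset.mul_sum]
  refine Finset.sum_congr rfl fun t _ => ?_
  rw [Finset.sum_congr rfl (g := fun _ => g t)
    (fun k hk => by rw [(Finset.mem_filter.1 hk).2])]
  rw [Finset.sum_const, hι.count t, nsmul_eq_mul]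

lemma pos_mono (n : ℕ) {ω : Fin 3 → ℝ} (hω : ∀ i, 0 < ω i) (ι : ℕ → Fin 3) :
    Monotone (pos n ω ι) := by
  refine monotone_nat_of_le_succ fun k => ?_
  have h1 := hω (ι k)
  have h2 := hω (ι (k + 1))
  rw [pos]
  have : 0 ≤ (ω (ι k) + ω (ι (k + 1))) / (2 * n) := by positivity
  linarith

/-- charges along the arrangement -/
def ch (w : Fin 3 → ℝ) (ι : ℕ → Fin 3) (k : ℕ) : ℝ := w (ι k)

lemma energy_rank_one {n : ℕ} {ω : Fin 3 → ℝ} (hω : ∀ i, 0 < ω i) {ι : ℕ → Fin 3}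
    (hι : IsArrangement n ι) {w : Fin 3 → ℝ} (hw : ∑ t, w t = 0) :
    2 * energy n ω (fun i j => w i * w j) ι =
      (∑ j ∈ range (3 * n), ω (ι (j + 1)) / (2 * n) *
        ((ps (ch w ι) j) ^ 2 + (ps (ch w ι) (j + 1)) ^ 2)) -
      (∑ j ∈ range (3 * n), ω (ι (j + 1)) / (2 * n) *
        ((ps (ch w ι) j) + (ps (ch w ι) (j + 1)))) ^ 2 := by
  have hclosed : ps (ch w ι) (3 * n) = 0 := by
    have := count_sum hι w
    rw [hw, mul_zero] at this
    exact this
  have key : ∀ F : ℝ → ℝ, F 0 = 0 →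
      ∑ j ∈ range (3 * n), (pos n ω ι (j + 1) - pos n ω ι j) * F (ps (ch w ι) j) =
      ∑ j ∈ range (3 * n), ω (ι (j + 1)) / (2 * n) *
        (F (ps (ch w ι) j) + F (ps (ch w ι) (j + 1))) := by
    intro F hF
    have e1 : ∑ j ∈ range (3 * n), (pos n ω ι (j + 1) - pos n ω ι j) * F (ps (ch w ι) j) =
        (∑ j ∈ range (3 * n), ω (ι j) / (2 * n) * F (ps (ch w ι) j)) +
        ∑ j ∈ range (3 * n), ω (ι (j + 1)) / (2 * n) * F (ps (ch w ι) j) := by
      rw [← Finset.sum_add_distrib]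
      refine Finset.sum_congr rfl fun j _ => ?_
      rw [pos]; ring
    have e2 : ∑ j ∈ range (3 * n), ω (ι j) / (2 * n) * F (ps (ch w ι) j) =
        ∑ j ∈ range (3 * n), ω (ι (j + 1)) / (2 * n) * F (ps (ch w ι) (j + 1)) := by
      have h1 := Finset.sum_range_succ (fun j => ω (ι j) / (2 * n) * F (ps (ch w ι) j)) (3 * n)
      have h2 := Finset.sum_range_succ' (fun j => ω (ι j) / (2 * n) * F (ps (ch w ι) j)) (3 * n)
      rw [h1, hclosed, ps_zero, hF] at h2
      linarith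
    rw [e1, e2, ← Finset.sum_add_distrib]
    refine Finset.sum_congr rfl fun j _ => ?_
    ring
  have hg := green_sum (ch w ι) (pos n ω ι) (pos_mono n hω ι) (3 * n) hclosed
  rw [key (fun x => x ^ 2) (by norm_num), key (fun x => x) rfl] at hg
  rw [← hg, energy, sum_Icc_shift]
  rw [← mul_assoc]
  norm_num
  refine Finset.sum_congr rfl fun k _ => ?_
  rw [sum_Icc_shift]
  rfl

lemma exists_pot (e : ℤ → ℝ) : ∃ h : ℤ → ℝ, ∀ j, h (j + 1) - h j = e j := by
  refine ⟨fun j => (∑ l ∈ range j.toNat, e l) - ∑ l ∈ range (-j).toNat, e (-(l : ℤ) - 1), ?_⟩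
  intro j
  rcases j with m | m
  · have h1 : (Int.ofNat m + 1).toNat = m + 1 := by simp
    have h2 : (Int.ofNat m).toNat = m := by simp
    have h3 : (-(Int.ofNat m + 1)).toNat = 0 := by simp
    have h4 : (-(Int.ofNat m)).toNat = 0 := by simp
    simp only [h1, h2, h3, h4, Finset.sum_range_succ, Finset.sum_range_zero]
    simp
  · have h1 : (Int.negSucc m + 1).toNat = 0 := by
      rw [Int.negSucc_eq]; simp
    have h2 : (Int.negSucc m).toNat = 0 := by simp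
    have h3 : (-(Int.negSucc m + 1)).toNat = m := by
      rw [Int.negSucc_eq]; simp
    have h4 : (-(Int.negSucc m)).toNat = m + 1 := by
      rw [Int.negSucc_eq]; simp
    simp only [h1, h2, h3, h4, Finset.sum_range_succ, Finset.sum_range_zero]
    rw [Int.negSucc_eq]
    have : -((m : ℤ)) - 1 = -((m : ℤ) + 1) := by ring
    rw [this]; ring

/-- The value of the cyclic arrangement. -/
noncomputable def Vs (ω w : Fin 3 → ℝ) : ℝ :=
  1 / 4 * (ω 0 * w 0 ^ 2 + ω 1 * w 1 ^ 2 + ω 2 * w 2 ^ 2 + ω 1 * ω 2 * w 0 ^ 2 +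
    ω 0 * ω 2 * w 1 ^ 2 + ω 0 * ω 1 * w 2 ^ 2)

lemma walk_bound {n : ℕ} {ι : ℕ → Fin 3} (hι : IsArrangement n ι)
    {ω w : Fin 3 → ℝ} (hω : ∀ i, 0 < ω i) {X Y Z : Fin 3}
    (hXY : X ≠ Y) (hXZ : X ≠ Z) (hYZ : Y ≠ Z) (hall : ∀ t, t = X ∨ t = Y ∨ t = Z)
    (hsum : ω X + ω Y + ω Z = 1) {a b : ℝ} (ha : 0 < a) (hb : 0 ≤ b)
    (hX : w X = -a) (hY : w Y = -b) (hZ : w Z = a + b) (hD : ω X * b ≤ ω Y * a)
    {y : ℕ → ℝ} (hy : ∀ k, y (k + 1) = y k + w (ι (k + 1))) :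
    n * (1 / 4 * (ω X * a ^ 2 + ω Y * b ^ 2 + ω Z * (a + b) ^ 2 + ω Y * ω Z * a ^ 2 +
      ω X * ω Z * b ^ 2 + ω X * ω Y * (a + b) ^ 2)) ≤
      ∑ k ∈ range (3 * n), ω (ι (k + 1)) * ((y k) ^ 2 + (y (k + 1)) ^ 2) / 2 := by
  set p := ω X with hp
  set q := ω Y with hq
  set r := ω Z with hr
  have hp0 : 0 < p := hω X
  have hq0 : 0 < q := hω Y
  have hr0 : 0 < r := hω Z
  set δ := q - p * b / a with hδ
  have hδ0 : 0 ≤ δ := by
    rw [hδ, sub_nonneg, div_le_iff₀ ha]; exact hD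
  have hδ1 : δ ≤ 1 := by
    have : 0 ≤ p * b / a := by positivity
    linarith
  have hall3 : (Finset.univ : Finset (Fin 3)) = {X, Y, Z} := by
    ext t; simpa using hall t
  have hsum3 : ∀ g : Fin 3 → ℝ, ∑ t, g t = g X + g Y + g Z := by
    intro g
    rw [hall3, Finset.sum_insert (by simp [hXY, hXZ]), Finset.sum_insert (by simp [hYZ]),
      Finset.sum_singleton]; ring
  -- integer coordinates
  let dI : Fin 3 → ℤ := fun t => if t = X then -1 else if t = Y then 0 else 1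
  let dJ : Fin 3 → ℤ := fun t => if t = X then 0 else if t = Y then -1 else 1
  have dIX : dI X = -1 := by simp [dI]
  have dIY : dI Y = 0 := by simp [dI, hXY.symm]
  have dIZ : dI Z = 1 := by simp [dI, hXZ.symm, hYZ.symm]
  have dJX : dJ X = 0 := by simp [dJ]
  have dJY : dJ Y = -1 := by simp [dJ, hXY.symm]
  have dJZ : dJ Z = 1 := by simp [dJ, hXZ.symm, hYZ.symm]
  let I : ℕ → ℤ := fun k => ∑ j ∈ range k, dI (ι (j + 1))
  let J : ℕ → ℤ := fun k => ∑ j ∈ range k, dJ (ι (j + 1))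
  have hI : ∀ k, I (k + 1) = I k + dI (ι (k + 1)) := fun k => Finset.sum_range_succ _ _
  have hJ : ∀ k, J (k + 1) = J k + dJ (ι (k + 1)) := fun k => Finset.sum_range_succ _ _
  have hyIJ : ∀ k, y k = y 0 + I k * a + J k * b := by
    intro k
    induction k with
    | zero => simp [I, J]
    | succ k ih =>
      rw [hy, ih, hI, hJ]
      rcases hall (ι (k + 1)) with h | h | h
      · rw [h, hX, dIX, dJX]; push_cast; ring
      · rw [h, hY, dIY, dJY]; push_cast; ring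
      · rw [h, hZ, dIZ, dJZ]; push_cast; ring
  have hJN : J (3 * n) = 0 := by
    have h1 : ((J (3 * n) : ℤ) : ℝ) = ∑ k ∈ range (3 * n), (fun t => (dJ t : ℝ)) (ι (k + 1)) := by
      simp only [J]; push_cast; rfl
    have h0 := count_sum hι (fun t => (dJ t : ℝ))
    rw [hsum3] at h0
    simp only [dJX, dJY, dJZ] at h0
    push_cast at h0
    have h2 : ((J (3 * n) : ℤ) : ℝ) = 0 := by rw [h1]; simp only [h0]; ring
    exact_mod_cast h2
  have hyN : y (3 * n) = y 0 := by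
    have h1 : ((I (3 * n) : ℤ) : ℝ) = ∑ k ∈ range (3 * n), (fun t => (dI t : ℝ)) (ι (k + 1)) := by
      simp only [I]; push_cast; rfl
    have h0 := count_sum hι (fun t => (dI t : ℝ))
    rw [hsum3] at h0
    simp only [dIX, dIY, dIZ] at h0
    push_cast at h0
    have h2 : ((I (3 * n) : ℤ) : ℝ) = 0 := by rw [h1]; simp only [h0]; ring
    rw [hyIJ, h2, hJN]; simp
  -- potential
  set x : ℤ → ℝ := fun j => y 0 + j * b + b / 2 with hx
  set e : ℤ → ℝ := fun j => (x j - a * round (x j / a)) ^ 2 with he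
  obtain ⟨h, hh⟩ := exists_pot e
  have he_le : ∀ (j m : ℤ), e j ≤ (x j + m * a) ^ 2 := by
    intro j m
    have h1 := round_le (x j / a) (-m)
    rw [he]; simp only
    rw [sq_le_sq]
    have e1 : x j - a * round (x j / a) = a * (x j / a - round (x j / a)) := by
      field_simp
    have e2 : x j + m * a = a * (x j / a - ((-m : ℤ) : ℝ)) := by
      push_cast; field_simp; ring
    rw [e1, e2, abs_mul, abs_mul]
    exact mul_le_mul_of_nonneg_left h1 (abs_nonneg _)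
  have he_ge : ∀ (j m : ℤ), δ * (1 - δ) * a ^ 2 / 4 ≤
      (1 - δ) * (x j + (m + 1 / 2) * a) ^ 2 + δ * e j := by
    intro j m
    set z := x j + (m + 1 / 2) * a with hz
    set K : ℤ := m + round (x j / a) with hK
    have e1 : e j = (z - a * ((K : ℝ) + 1 / 2)) ^ 2 := by
      rw [he, hz, hK]; push_cast; ring
    have hKsq : (1 : ℝ) / 4 ≤ ((K : ℝ) + 1 / 2) ^ 2 := by
      rcases le_or_gt 0 K with h0 | h0
      · have : (0 : ℝ) ≤ K := by exact_mod_cast h0
        nlinarith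
      · have : (K : ℝ) ≤ -1 := by exact_mod_cast (by omega : K ≤ -1)
        nlinarith
    have h2 : (1 - δ) * z ^ 2 + δ * (z - a * ((K : ℝ) + 1 / 2)) ^ 2 =
        (z - δ * (a * ((K : ℝ) + 1 / 2))) ^ 2 + δ * (1 - δ) * (a ^ 2 * ((K : ℝ) + 1 / 2) ^ 2) := by
      ring
    rw [e1, h2]
    have h3 : 0 ≤ δ * (1 - δ) := mul_nonneg hδ0 (by linarith)
    have h4 : a ^ 2 * (1 / 4) ≤ a ^ 2 * ((K : ℝ) + 1 / 2) ^ 2 :=
      mul_le_mul_of_nonneg_left hKsq (sq_nonneg a)
    have h5 := mul_le_mul_of_nonneg_left h4 h3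
    have h6 := sq_nonneg (z - δ * (a * ((K : ℝ) + 1 / 2)))
    linarith
  let β : Fin 3 → ℝ := fun t => if t = X then p * a ^ 2 / 6 else
    if t = Y then q * b ^ 2 / 4 - p * b ^ 3 / (12 * a) else
      r * (a + b) ^ 2 / 4 + p * (a + b) ^ 3 / (12 * a) + δ * (1 - δ) * a ^ 2 / 4
  have βX : β X = p * a ^ 2 / 6 := by simp [β]
  have βY : β Y = q * b ^ 2 / 4 - p * b ^ 3 / (12 * a) := by simp [β, hXY.symm]
  have βZ : β Z = r * (a + b) ^ 2 / 4 + p * (a + b) ^ 3 / (12 * a) + δ * (1 - δ) * a ^ 2 / 4 := by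
    simp [β, hXZ.symm, hYZ.symm]
  have step : ∀ k, β (ι (k + 1)) - p / (3 * a) * ((y (k + 1)) ^ 3 - (y k) ^ 3) -
      δ * (h (J (k + 1)) - h (J k)) ≤ ω (ι (k + 1)) * ((y k) ^ 2 + (y (k + 1)) ^ 2) / 2 := by
    intro k
    have hyk := hyIJ k
    have hy1 := hy k
    have hJ1 := hJ k
    rcases hall (ι (k + 1)) with ht | ht | ht
    · rw [ht] at hy1 hJ1 ⊢
      rw [dJX, add_zero] at hJ1
      rw [hX] at hy1
      rw [βX, hJ1, hy1, ← hp]
      have : p * a ^ 2 / 6 - p / (3 * a) * ((y k + -a) ^ 3 - y k ^ 3) - δ * (h (J k) - h (J k)) =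
          p * (y k ^ 2 + (y k + -a) ^ 2) / 2 := by
        field_simp; ring
      exact this.le
    · rw [ht] at hy1 hJ1 ⊢
      rw [dJY] at hJ1
      rw [hY] at hy1
      have h1 := hh (J (k + 1))
      have h2 : J (k + 1) + 1 = J k := by rw [hJ1]; ring
      rw [h2] at h1
      have h3 := he_le (J (k + 1)) (I k)
      have h4 : x (J (k + 1)) + I k * a = y k - b / 2 := by
        rw [hx, hyk, hJ1]; push_cast; ring
      rw [h4] at h3
      have h5 : h (J (k + 1)) - h (J k) = -e (J (k + 1)) := by linarith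
      rw [βY, h5, hy1, ← hq]
      have h6 := mul_le_mul_of_nonneg_left h3 hδ0
      have h7 : q * (y k ^ 2 + (y k + -b) ^ 2) / 2 - (q * b ^ 2 / 4 - p * b ^ 3 / (12 * a) -
          p / (3 * a) * ((y k + -b) ^ 3 - y k ^ 3)) = δ * (y k - b / 2) ^ 2 := by
        rw [hδ]; field_simp; ring
      linarith
    · rw [ht] at hy1 hJ1 ⊢
      rw [dJZ] at hJ1
      rw [hZ] at hy1
      have h1 := hh (J k)
      rw [← hJ1] at h1
      have h3 := he_ge (J k) (I k)
      have h4 : x (J k) + (I k + 1 / 2) * a = y k + (a + b) / 2 := by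
        rw [hx, hyk]; ring
      rw [h4] at h3
      rw [βZ, h1, hy1, ← hr]
      have h7 : r * (y k ^ 2 + (y k + (a + b)) ^ 2) / 2 - (r * (a + b) ^ 2 / 4 +
          p * (a + b) ^ 3 / (12 * a) -
          p / (3 * a) * ((y k + (a + b)) ^ 3 - y k ^ 3)) =
          (r + p * (a + b) / a) * (y k + (a + b) / 2) ^ 2 := by
        field_simp; ring
      have h8 : r + p * (a + b) / a = 1 - δ := by
        rw [hδ]; field_simp
        have : r = 1 - p - q := by linarith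
        rw [this]; ring
      rw [h8] at h7
      linarith
  have hsumstep := Finset.sum_le_sum (fun k (_ : k ∈ range (3 * n)) => step k)
  rw [Finset.sum_sub_distrib, Finset.sum_sub_distrib, ← Finset.mul_sum, ← Finset.mul_sum,
    Finset.sum_range_sub (fun k => (y k) ^ 3), Finset.sum_range_sub (fun k => h (J k)), hyN,
    sub_self, mul_zero, sub_zero, hJN] at hsumstep
  have hJ0 : J 0 = 0 := by simp [J]
  rw [hJ0, sub_self, mul_zero, sub_zero, count_sum hι β, hsum3, βX, βY, βZ] at hsumstep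
  refine le_trans (le_of_eq ?_) hsumstep
  congr 1
  have hr1 : r = 1 - p - q := by linarith
  rw [hr1, hδ]
  field_simp
  ring

lemma Vs_perm (ω w : Fin 3 → ℝ) {X Y Z : Fin 3} (hXY : X ≠ Y) (hXZ : X ≠ Z) (hYZ : Y ≠ Z) :
    Vs ω w = 1 / 4 * (ω X * w X ^ 2 + ω Y * w Y ^ 2 + ω Z * w Z ^ 2 + ω Y * ω Z * w X ^ 2 +
      ω X * ω Z * w Y ^ 2 + ω X * ω Y * w Z ^ 2) := by
  fin_cases X <;> fin_cases Y <;> fin_cases Z <;> first | (exfalso; simp at hXY hXZ hYZ; done) |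
    (simp only [Vs]; simp; try ring)

lemma cover {X Y Z : Fin 3} (hXY : X ≠ Y) (hXZ : X ≠ Z) (hYZ : Y ≠ Z) :
    ∀ t, t = X ∨ t = Y ∨ t = Z := by
  revert X Y Z; decide

lemma sum_three (g : Fin 3 → ℝ) {X Y Z : Fin 3} (hXY : X ≠ Y) (hXZ : X ≠ Z) (hYZ : Y ≠ Z) :
    ∑ t, g t = g X + g Y + g Z := by
  have hall3 : (Finset.univ : Finset (Fin 3)) = {X, Y, Z} := by
    ext t; simpa using cover hXY hXZ hYZ t
  rw [hall3, Finset.sum_insert (by simp [hXY, hXZ]), Finset.sum_insert (by simp [hYZ]),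
      Finset.sum_singleton]; ring

lemma lower_aux {n : ℕ} (hn : 0 < n) {ι : ℕ → Fin 3} (hι : IsArrangement n ι)
    {ω w : Fin 3 → ℝ} (hω : ∀ i, 0 < ω i) (hω1 : ∑ t, ω t = 1) (hw : ∑ t, w t = 0)
    {X Y Z : Fin 3} (hXY : X ≠ Y) (hXZ : X ≠ Z) (hYZ : Y ≠ Z)
    (ha : w X < 0) (hb : w Y ≤ 0) (hD : ω X * (-w Y) ≤ ω Y * (-w X)) :
    Vs ω w ≤ 2 * energy n ω (fun i j => w i * w j) ι := by
  have hn' : (0 : ℝ) < n := by exact_mod_cast hn
  rw [energy_rank_one hω hι hw]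
  set m := ∑ j ∈ range (3 * n), ω (ι (j + 1)) / (2 * n) *
        ((ps (ch w ι) j) + (ps (ch w ι) (j + 1))) with hm
  have hs1 := sum_three ω hXY hXZ hYZ
  have hs2 := sum_three w hXY hXZ hYZ
  have hwb := walk_bound hι (w := w) hω hXY hXZ hYZ (cover hXY hXZ hYZ) (by rw [← hs1, hω1])
    (a := -w X) (b := -w Y) (by linarith) (by linarith) (by ring) (by ring)
    (by rw [hw] at hs2; linarith) hD (y := fun k => ps (ch w ι) k - m)
    (fun k => by simp only [ps_succ, ch]; ring)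
  have hwZ : -w X + -w Y = w Z := by rw [hw] at hs2; linarith
  rw [hwZ] at hwb
  have hV : Vs ω w = 1 / 4 * (ω X * (-w X) ^ 2 + ω Y * (-w Y) ^ 2 + ω Z * w Z ^ 2 +
      ω Y * ω Z * (-w X) ^ 2 + ω X * ω Z * (-w Y) ^ 2 + ω X * ω Y * w Z ^ 2) := by
    rw [Vs_perm ω w hXY hXZ hYZ]; ring
  rw [← hV] at hwb
  have htot : ∑ j ∈ range (3 * n), ω (ι (j + 1)) = n := by
    rw [count_sum hι ω, hω1, mul_one]
  have hexp : ∑ k ∈ range (3 * n), ω (ι (k + 1)) *
      ((ps (ch w ι) k - m) ^ 2 + (ps (ch w ι) (k + 1) - m) ^ 2) / 2 =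
      n * ((∑ j ∈ range (3 * n), ω (ι (j + 1)) / (2 * n) *
        ((ps (ch w ι) j) ^ 2 + (ps (ch w ι) (j + 1)) ^ 2)) - m ^ 2) := by
    have e1 : ∀ k, ω (ι (k + 1)) *
        ((ps (ch w ι) k - m) ^ 2 + (ps (ch w ι) (k + 1) - m) ^ 2) / 2 =
        n * (ω (ι (k + 1)) / (2 * n) * ((ps (ch w ι) k) ^ 2 + (ps (ch w ι) (k + 1)) ^ 2)) -
        (2 * m * n) * (ω (ι (k + 1)) / (2 * n) * ((ps (ch w ι) k) + (ps (ch w ι) (k + 1)))) +
        m ^ 2 * ω (ι (k + 1)) := by
      intro k; field_simp; ring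
    simp only [e1, Finset.sum_add_distrib, Finset.sum_sub_distrib, ← Finset.mul_sum]
    rw [← hm, htot]; ring
  rw [hexp] at hwb
  exact le_of_mul_le_mul_left hwb hn'

lemma lower_aux2 {n : ℕ} (hn : 0 < n) {ι : ℕ → Fin 3} (hι : IsArrangement n ι)
    {ω w : Fin 3 → ℝ} (hω : ∀ i, 0 < ω i) (hω1 : ∑ t, ω t = 1) (hw : ∑ t, w t = 0)
    {X Y Z : Fin 3} (hXY : X ≠ Y) (hXZ : X ≠ Z) (hYZ : Y ≠ Z)
    (ha : w X ≤ 0) (hb : w Y ≤ 0) :
    Vs ω w ≤ 2 * energy n ω (fun i j => w i * w j) ι := by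
  have hX := hω X
  have hY := hω Y
  rcases le_total (ω X * (-w Y)) (ω Y * (-w X)) with hD | hD
  · rcases ha.lt_or_eq with ha' | ha'
    · exact lower_aux hn hι hω hω1 hw hXY hXZ hYZ ha' hb hD
    · have hwY : w Y = 0 := by
        rw [ha'] at hD
        have : ω X * (-w Y) ≤ 0 := by simpa using hD
        have h2 : -w Y ≤ 0 := by
          by_contra h
          push Not at h
          have := mul_pos hX h
          linarith
        linarith
      have hwZ : w Z = 0 := by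
        have := sum_three w hXY hXZ hYZ
        rw [hw, ha', hwY] at this; linarith
      have hw0 : w = fun _ => 0 := by
        funext t
        rcases cover hXY hXZ hYZ t with h | h | h <;> rw [h] <;> assumption
      rw [hw0]
      simp [Vs, energy]
  · rcases hb.lt_or_eq with hb' | hb'
    · exact lower_aux hn hι hω hω1 hw hXY.symm hYZ hXZ hb' ha hD
    · have hwX : w X = 0 := by
        rw [hb'] at hD
        have : ω Y * (-w X) ≤ 0 := by simpa using hD
        have h2 : -w X ≤ 0 := by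
          by_contra h
          push Not at h
          have := mul_pos hY h
          linarith
        linarith
      have hwZ : w Z = 0 := by
        have := sum_three w hXY hXZ hYZ
        rw [hw, hb', hwX] at this; linarith
      have hw0 : w = fun _ => 0 := by
        funext t
        rcases cover hXY hXZ hYZ t with h | h | h <;> rw [h] <;> assumption
      rw [hw0]
      simp [Vs, energy]

lemma lower_aux3 {n : ℕ} (hn : 0 < n) {ι : ℕ → Fin 3} (hι : IsArrangement n ι)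
    {ω w : Fin 3 → ℝ} (hω : ∀ i, 0 < ω i) (hω1 : ∑ t, ω t = 1) (hw : ∑ t, w t = 0)
    {X Y Z : Fin 3} (hXY : X ≠ Y) (hXZ : X ≠ Z) (hYZ : Y ≠ Z)
    (ha : 0 ≤ w X) (hb : 0 ≤ w Y) :
    Vs ω w ≤ 2 * energy n ω (fun i j => w i * w j) ι := by
  have h := lower_aux2 hn hι hω hω1 (w := fun t => -w t) (by simp [hw]) hXY hXZ hYZ
    (by linarith) (by linarith)
  simpa [Vs, neg_mul_neg] using h

lemma lower {n : ℕ} (hn : 0 < n) {ι : ℕ → Fin 3} (hι : IsArrangement n ι)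
    {ω w : Fin 3 → ℝ} (hω : ∀ i, 0 < ω i) (hω1 : ∑ t, ω t = 1) (hw : ∑ t, w t = 0) :
    Vs ω w ≤ 2 * energy n ω (fun i j => w i * w j) ι := by
  have h01 : (0 : Fin 3) ≠ 1 := by decide
  have h02 : (0 : Fin 3) ≠ 2 := by decide
  have h12 : (1 : Fin 3) ≠ 2 := by decide
  rcases le_total (w 0) 0 with h0 | h0 <;> rcases le_total (w 1) 0 with h1 | h1 <;>
    rcases le_total (w 2) 0 with h2 | h2
  · exact lower_aux2 hn hι hω hω1 hw h01 h02 h12 h0 h1
  · exact lower_aux2 hn hι hω hω1 hw h01 h02 h12 h0 h1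
  · exact lower_aux2 hn hι hω hω1 hw h02 h01 h12.symm h0 h2
  · exact lower_aux3 hn hι hω hω1 hw h12 h01.symm h02.symm h1 h2
  · exact lower_aux2 hn hι hω hω1 hw h12 h01.symm h02.symm h1 h2
  · exact lower_aux3 hn hι hω hω1 hw h02 h01 h12.symm h0 h2
  · exact lower_aux3 hn hι hω hω1 hw h01 h02 h12 h0 h1
  · exact lower_aux3 hn hι hω hω1 hw h01 h02 h12 h0 h1

lemma sum_range_three {M : Type*} [AddCommMonoid M] (F : ℕ → M) (n : ℕ) :
    ∑ k ∈ range (3 * n), F k = ∑ q ∈ range n, (F (3 * q) + F (3 * q + 1) + F (3 * q + 2)) := by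
  induction n with
  | zero => simp
  | succ n ih =>
    have : 3 * (n + 1) = 3 * n + 1 + 1 + 1 := by ring
    rw [this, Finset.sum_range_succ, Finset.sum_range_succ, Finset.sum_range_succ, ih,
      Finset.sum_range_succ]
    simp only [add_assoc]

lemma cyc1 (q : ℕ) : cyc (3 * q + 1) = 0 := by
  apply Fin.ext; simp [cyc]; omega
lemma cyc2 (q : ℕ) : cyc (3 * q + 1 + 1) = 1 := by
  apply Fin.ext; simp [cyc]; omega
lemma cyc3 (q : ℕ) : cyc (3 * q + 2 + 1) = 2 := by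
  apply Fin.ext; simp [cyc]; omega

lemma sum_Icc_shift_nat (F : ℕ → ℕ) (N : ℕ) :
    ∑ k ∈ Icc 1 N, F k = ∑ k ∈ range N, F (k + 1) := by
  induction N with
  | zero => simp
  | succ N ih => rw [Finset.sum_Icc_succ_top (by omega), ih, Finset.sum_range_succ]

lemma cyc_arr (n : ℕ) : IsArrangement n cyc := by
  refine ⟨?_, ?_⟩
  · apply Fin.ext; simp [cyc]
  · intro t
    rw [Finset.card_filter, sum_Icc_shift_nat, sum_range_three]
    simp only [cyc1, cyc2, cyc3]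
    fin_cases t <;> simp

lemma cyc_energy {n : ℕ} (hn : 0 < n) {ω w : Fin 3 → ℝ} (hω : ∀ i, 0 < ω i)
    (hω1 : ∑ t, ω t = 1) (hw : ∑ t, w t = 0) :
    2 * energy n ω (fun i j => w i * w j) cyc = Vs ω w := by
  have hn' : (0 : ℝ) < n := by exact_mod_cast hn
  rw [energy_rank_one hω (cyc_arr n) hw]
  have hw3 : w 0 + w 1 + w 2 = 0 := by rw [← hw, Fin.sum_univ_three]
  have hω3 : ω 0 + ω 1 + ω 2 = 1 := by rw [← hω1, Fin.sum_univ_three]
  have h0 : ∀ q, ps (ch w cyc) (3 * q) = 0 := by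
    intro q
    induction q with
    | zero => simp [ps]
    | succ q ih =>
      have : 3 * (q + 1) = 3 * q + 1 + 1 + 1 := by ring
      rw [this, ps_succ, ps_succ, ps_succ, ih]
      simp only [ch]
      rw [cyc1, cyc2]
      have := cyc3 q
      rw [show 3 * q + 2 + 1 = 3 * q + 1 + 1 + 1 by ring] at this
      rw [this]; linarith
  have h1 : ∀ q, ps (ch w cyc) (3 * q + 1) = w 0 := by
    intro q; rw [ps_succ, h0, zero_add, ch, cyc1]
  have h2 : ∀ q, ps (ch w cyc) (3 * q + 2) = w 0 + w 1 := by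
    intro q
    rw [show 3 * q + 2 = 3 * q + 1 + 1 by ring, ps_succ, h1, ch, cyc2]
  have h3 : ∀ q, ps (ch w cyc) (3 * q + 2 + 1) = 0 := by
    intro q
    have := h0 (q + 1)
    rwa [show 3 * (q + 1) = 3 * q + 2 + 1 by ring] at this
  rw [sum_range_three, sum_range_three]
  simp only [h0, h1, h2, h3, cyc1, cyc2, cyc3, Finset.sum_const, Finset.card_range, nsmul_eq_mul]
  have e : ∀ q, ps (ch w cyc) (3 * q + 1 + 1) = w 0 + w 1 := h2
  have hw2 : w 2 = -w 0 - w 1 := by linarith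
  have hω2 : ω 2 = 1 - ω 0 - ω 1 := by linarith
  rw [Vs, hw2, hω2]
  field_simp
  ring

lemma decomp {f : Matrix (Fin 3) (Fin 3) ℝ} (hf : f.PosSemidef)
    (hf1 : f.mulVec (fun _ => 1) = 0) :
    ∃ (c₁ c₂ : ℝ) (u₁ u₂ : Fin 3 → ℝ), 0 ≤ c₁ ∧ 0 ≤ c₂ ∧ ∑ t, u₁ t = 0 ∧ ∑ t, u₂ t = 0 ∧
      ∀ i j, f i j = c₁ * (u₁ i * u₁ j) + c₂ * (u₂ i * u₂ j) := by
  have hsymm : ∀ i j, f i j = f j i := by
    intro i j
    have := hf.1.apply i j
    simpa using this.symm
  have hrow : ∀ i, f i 0 + f i 1 + f i 2 = 0 := by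
    intro i
    have := congrFun hf1 i
    simpa [Matrix.mulVec, dotProduct, Fin.sum_univ_three] using this
  have hquad : ∀ x y : ℝ, 0 ≤ f 0 0 * x ^ 2 + 2 * f 0 1 * x * y + f 1 1 * y ^ 2 := by
    intro x y
    have h := hf.dotProduct_mulVec_nonneg ![x, y, 0]
    have e : star ![x, y, 0] ⬝ᵥ f.mulVec ![x, y, 0] =
        f 0 0 * x ^ 2 + 2 * f 0 1 * x * y + f 1 1 * y ^ 2 := by
      simp [Matrix.mulVec, dotProduct, Fin.sum_univ_three]
      rw [hsymm 1 0]; ring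
    rwa [e] at h
  have h00 : 0 ≤ f 0 0 := by simpa using hquad 1 0
  have h11 : 0 ≤ f 1 1 := by simpa using hquad 0 1
  have r0 := hrow 0
  have r1 := hrow 1
  have r2 := hrow 2
  have s01 := hsymm 1 0
  have s02 := hsymm 2 0
  have s12 := hsymm 2 1
  rcases h00.eq_or_lt with h0 | h0
  · -- f 0 0 = 0
    have h01 : f 0 1 = 0 := by
      by_contra hne
      have := hquad (-(f 1 1 + 1) / (2 * f 0 1)) 1
      have e : f 0 0 * (-(f 1 1 + 1) / (2 * f 0 1)) ^ 2 +
          2 * f 0 1 * (-(f 1 1 + 1) / (2 * f 0 1)) * 1 + f 1 1 * 1 ^ 2 = -1 := by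
        rw [← h0]; field_simp; ring
      rw [e] at this
      linarith
    refine ⟨0, f 1 1, fun _ => 0, ![0, 1, -1], le_refl _, h11, by simp,
      by simp [Fin.sum_univ_three], ?_⟩
    have a02 : f 0 2 = 0 := by linarith
    have a12 : f 1 2 = - f 1 1 := by linarith
    have a22 : f 2 2 = f 1 1 := by linarith
    intro i j
    fin_cases i <;> fin_cases j <;> simp <;> linarith
  · have hdet : 0 ≤ f 1 1 - f 0 1 ^ 2 / f 0 0 := by
      have := hquad (-(f 0 1) / f 0 0) 1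
      have e : f 0 0 * (-(f 0 1) / f 0 0) ^ 2 + 2 * f 0 1 * (-(f 0 1) / f 0 0) * 1 +
          f 1 1 * 1 ^ 2 = f 1 1 - f 0 1 ^ 2 / f 0 0 := by
        field_simp; ring
      rwa [e] at this
    refine ⟨1 / f 0 0, f 1 1 - f 0 1 ^ 2 / f 0 0, ![f 0 0, f 0 1, -f 0 0 - f 0 1], ![0, 1, -1],
      by positivity, hdet, by simp [Fin.sum_univ_three], by simp [Fin.sum_univ_three], ?_⟩
    have a02 : f 0 2 = -f 0 0 - f 0 1 := by linarith
    have a12 : f 1 2 = - f 0 1 - f 1 1 := by linarith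
    have a22 : f 2 2 = f 0 0 + 2 * f 0 1 + f 1 1 := by linarith
    intro i j
    fin_cases i <;> fin_cases j <;> simp [s01, s02, s12, a02, a12, a22] <;> field_simp <;> ring

lemma energy_lin (n : ℕ) (ω : Fin 3 → ℝ) (ι : ℕ → Fin 3) {f : Matrix (Fin 3) (Fin 3) ℝ}
    {c₁ c₂ : ℝ} {u₁ u₂ : Fin 3 → ℝ}
    (h : ∀ i j, f i j = c₁ * (u₁ i * u₁ j) + c₂ * (u₂ i * u₂ j)) :
    energy n ω f ι = c₁ * energy n ω (fun i j => u₁ i * u₁ j) ι +
      c₂ * energy n ω (fun i j => u₂ i * u₂ j) ι := by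
  simp only [energy]
  simp only [h, Finset.mul_sum, ← Finset.sum_add_distrib]
  refine Finset.sum_congr rfl fun k _ => Finset.sum_congr rfl fun m _ => ?_
  ring

/-- **Main theorem.** For every `n ≥ 1`, all weights `ω_i > 0` with `∑ ω_i = 1` and every
admissible matrix `f` (symmetric positive semidefinite with `f (1,1,1)ᵀ = 0`), the cyclic
arrangement is an arrangement and minimizes the energy among all arrangements. -/
theorem result (n : ℕ) (hn : 0 < n) (ω : Fin 3 → ℝ) (hω : ∀ i, 0 < ω i) (hω1 : ∑ i, ω i = 1)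
    (f : Matrix (Fin 3) (Fin 3) ℝ) (hf : f.PosSemidef) (hf1 : f.mulVec (fun _ => 1) = 0) :
    IsArrangement n cyc ∧ ∀ ι : ℕ → Fin 3, IsArrangement n ι →
      energy n ω f cyc ≤ energy n ω f ι := by
  refine ⟨cyc_arr n, fun ι hι => ?_⟩
  obtain ⟨c₁, c₂, u₁, u₂, hc₁, hc₂, hu₁, hu₂, hdec⟩ := decomp hf hf1
  rw [energy_lin n ω cyc hdec, energy_lin n ω ι hdec]
  have h1 := lower hn hι hω hω1 hu₁
  have h2 := lower hn hι hω hω1 hu₂
  rw [← cyc_energy hn hω hω1 hu₁] at h1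
  rw [← cyc_energy hn hω hω1 hu₂] at h2
  have h1' : energy n ω (fun i j => u₁ i * u₁ j) cyc ≤
      energy n ω (fun i j => u₁ i * u₁ j) ι := by linarith
  have h2' : energy n ω (fun i j => u₂ i * u₂ j) cyc ≤
      energy n ω (fun i j => u₂ i * u₂ j) ι := by linarith
  exact add_le_add (mul_le_mul_of_nonneg_left h1' hc₁) (mul_le_mul_of_nonneg_left h2' hc₂)

end Pool.Agent.Results.MP_c8d2d2_an.CyclicOptimal
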